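import Mathlib
import Pool.Agent.Helpers25.RMFinal

/-!
# MP_fb643f_pr, Q1: the law of large numbers `M_n / log n → 1` in probability

`(ξ_k)_{k ≥ 1}` are i.i.d. real random variables with mean `0`, variance `1` and
`E exp(c |ξ_1|) < ∞` for some `c > 0`; `P_n(z) = ∑_{k=1}^n ξ_k z^k / √k` and
`M_n = max_{|z| = 1} |P_n(z)|`.  The deterministic sequence is `a_n = log n`.
(The value `ξ 0` plays no role: no hypothesis concerns it and the sum starts at `k = 1`.)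
-/

namespace Pool.Agent.Results.MP_fb643f_pr.LogLLN

open MeasureTheory ProbabilityTheory Filter

/-- `M_n(ω) = sup_{|z| = 1} |∑_{k=1}^n ξ_k(ω) z^k / √k|`. -/
noncomputable def maxModulus {Ω : Type*} (ξ : ℕ → Ω → ℝ) (n : ℕ) (ω : Ω) : ℝ :=
  ⨆ z : Circle, ‖∑ k ∈ Finset.Icc 1 n, ((ξ k ω / √(k : ℝ) : ℝ) : ℂ) * (z : ℂ) ^ k‖

/-- For every i.i.d. sequence `(ξ_k)_{k ≥ 1}` of mean `0`, variance `1` and finite exponential
moment, `M_n / log n → 1` in probability. -/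
theorem result {Ω : Type*} [MeasurableSpace Ω] (μ : Measure Ω) [IsProbabilityMeasure μ]
    (ξ : ℕ → Ω → ℝ)
    (hmeas : ∀ k, 1 ≤ k → Measurable (ξ k))
    (hindep : iIndepFun (fun k : ℕ => ξ (k + 1)) μ)
    (hident : ∀ k, 1 ≤ k → IdentDistrib (ξ k) (ξ 1) μ μ)
    (hmean : ∫ ω, ξ 1 ω ∂μ = 0)
    (hvar : ∫ ω, ξ 1 ω ^ 2 ∂μ = 1)
    (hexp : ∃ c : ℝ, 0 < c ∧ Integrable (fun ω => Real.exp (c * |ξ 1 ω|)) μ) :
    TendstoInMeasure μ (fun n ω => maxModulus ξ n ω / Real.log n) atTop (fun _ => (1 : ℝ)) :=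
  Pool.Agent.Helpers25.RM.main μ ξ (fun k => hmeas (k + 1) (by omega)) hindep
    (fun k => hident (k + 1) (by omega)) hmean hvar hexp

end Pool.Agent.Results.MP_fb643f_pr.LogLLN
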